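import Mathlib
import Pool.Agent.KS6_16.KU.Fin

set_option autoImplicit false

open Polynomial

namespace Pool.Agent.Results.MP_6cc408_an.ExtremalPolynomials

/-- The class `P_N`: polynomials of degree `N` with real coefficients, `p(0) = 0`, `p'(0) = 1`,
which are injective on the open unit disc. -/
def Univalent (N : ℕ) (p : ℝ[X]) : Prop :=
  p.natDegree = N ∧ p.coeff 0 = 0 ∧ p.coeff 1 = 1 ∧
    Set.InjOn (fun z : ℂ => aeval z p) (Metric.ball (0 : ℂ) 1)

/-- The image `p(D)` of the open unit disc. -/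
def discImage (p : ℝ[X]) : Set ℂ := (fun z : ℂ => aeval z p) '' Metric.ball (0 : ℂ) 1

/-- The Koebe radius `r(p) = dist(0, ∂ p(D))` of a polynomial. -/
noncomputable def radius (p : ℝ[X]) : ℝ := Metric.infDist (0 : ℂ) (frontier (discImage p))

/-- The Koebe radius `R_N = inf r(p)` of the class `P_N`. -/
noncomputable def classRadius (N : ℕ) : ℝ := sInf {r : ℝ | ∃ p : ℝ[X], Univalent N p ∧ r = radius p}

/-- The number `ρ_N = 1 / (4 cos² (π/(N+2)))`. -/
noncomputable def rho (N : ℕ) : ℝ := 1 / (4 * Real.cos (Real.pi / ((N : ℝ) + 2)) ^ 2)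

/-- The polynomial `F_N(z) = ∑_{j=1}^N c_j z^j` with
`(N+2) c_j = (1 - cos jφ)/(1 - cos φ) + (N+2-j) sin jφ / sin φ`, `φ = 2π/(N+2)`. -/
noncomputable def F (N : ℕ) : ℝ[X] :=
  ∑ j ∈ Finset.Icc 1 N, C (((1 - Real.cos (j * (2 * Real.pi / ((N : ℝ) + 2)))) /
      (1 - Real.cos (2 * Real.pi / ((N : ℝ) + 2))) +
    ((N : ℝ) + 2 - j) * Real.sin (j * (2 * Real.pi / ((N : ℝ) + 2))) /
      Real.sin (2 * Real.pi / ((N : ℝ) + 2))) / ((N : ℝ) + 2)) * X ^ j

/-- The reflection `-p(-z)` of a polynomial `p`. -/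
noncomputable def reflect (p : ℝ[X]) : ℝ[X] := -(p.comp (-X))

lemma F_eq {N : ℕ} (hN : 1 ≤ N) : F N = Pool.Agent.Helper766.FN N := by
  unfold F Pool.Agent.Helper766.FN
  apply Finset.sum_congr rfl
  intro j _
  rw [Pool.Agent.Helper766.coef_eq hN]
  unfold Pool.Agent.Helper766.bc
  push_cast
  rfl

/-- For every `N ≥ 1`:
(1) the Koebe radius of the class `P_N` is `ρ_N = 1 / (4 cos² (π/(N+2)))`;
(2) `F_N` and its reflection `-F_N(-z)` belong to `P_N`, and they differ when `N ≥ 2`;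
(3) every `p ∈ P_N` has `r(p) ≥ ρ_N`, with equality if and only if `p = F_N` or `p = -F_N(-z)`;
(4) every `p ∈ P_N` has `p(-1) ≤ -ρ_N`, with equality if and only if `p = F_N`, and
`p(1) ≥ ρ_N`, with equality if and only if `p = -F_N(-z)`;
(5) if `N ≥ 2` and `p ∈ P_N`, every `w` of the closed disc `|w| ≤ ρ_N` lies in `p(D)`, except
`w = -ρ_N` for `p = F_N` and `w = ρ_N` for `p = -F_N(-z)`, which do not;
(6) every real polynomial `p` of degree at most `N` with `p(0) = 0`, `p'(0) = 1` and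
`Im p(z) ≥ 0` on the closed upper half of the unit circle has `p(-1) ≤ -ρ_N`, with equality if and
only if `p = F_N`. -/
theorem result : ∀ N : ℕ, 1 ≤ N →
    classRadius N = rho N ∧
    (Univalent N (F N) ∧ Univalent N (reflect (F N)) ∧ (2 ≤ N → F N ≠ reflect (F N))) ∧
    (∀ p : ℝ[X], Univalent N p →
      rho N ≤ radius p ∧ (radius p = rho N ↔ p = F N ∨ p = reflect (F N))) ∧
    (∀ p : ℝ[X], Univalent N p →
      p.eval (-1) ≤ -rho N ∧ (p.eval (-1) = -rho N ↔ p = F N) ∧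
      rho N ≤ p.eval 1 ∧ (p.eval 1 = rho N ↔ p = reflect (F N))) ∧
    (2 ≤ N → ∀ p : ℝ[X], Univalent N p → ∀ w : ℂ, ‖w‖ ≤ rho N →
      (w ∉ discImage p ↔ (p = F N ∧ w = -((rho N : ℝ) : ℂ)) ∨
        (p = reflect (F N) ∧ w = ((rho N : ℝ) : ℂ)))) ∧
    (∀ p : ℝ[X], p.natDegree ≤ N → p.coeff 0 = 0 → p.coeff 1 = 1 →
      (∀ z : ℂ, ‖z‖ = 1 → 0 ≤ z.im → 0 ≤ (aeval z p).im) →
      p.eval (-1) ≤ -rho N ∧ (p.eval (-1) = -rho N ↔ p = F N)) := by
  intro N hN
  have hF := F_eq hN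
  have hR : reflect (F N) = -((Pool.Agent.Helper766.FN N).comp (-X)) := by
    unfold reflect
    rw [hF]
  have hFc : Univalent N (F N) := by
    rw [hF]
    exact Pool.Agent.Results.MP_6cc408_an.RealAxisSharp.FN_inClass hN
  have hRc : Univalent N (reflect (F N)) :=
    Pool.Agent.Results.MP_6cc408_an.RealAxisSharp.class_reflect hFc
  have hrad : ∀ p : ℝ[X], Univalent N p →
      rho N ≤ radius p ∧ (radius p = rho N ↔ p = F N ∨ p = reflect (F N)) := by
    intro p hp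
    refine ⟨Pool.Agent.KS6_16.KU.VN_le_infDist hN hp, ?_⟩
    rw [hR, hF]
    exact Pool.Agent.KS6_16.KU.infDist_eq_iff hN hp
  refine ⟨?_, ⟨hFc, hRc, ?_⟩, hrad, ?_, ?_, ?_⟩
  · have hleast : IsLeast {r : ℝ | ∃ p : ℝ[X], Univalent N p ∧ r = radius p} (rho N) := by
      constructor
      · exact ⟨F N, hFc, ((hrad _ hFc).2.mpr (Or.inl rfl)).symm⟩
      · rintro r ⟨p, hp, rfl⟩
        exact (hrad p hp).1
    exact hleast.csInf_eq
  · intro h2
    rw [hR, hF]
    exact Pool.Agent.KS6_16.KU.FN_ne_refl h2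
  · intro p hp
    obtain ⟨h1, h2⟩ := Pool.Agent.Helper809.Koe.vn_axis hN hp
    rw [hR, hF]
    exact ⟨by
      have : Pool.Agent.Helper766.G.VN N = rho N := rfl
      rw [this] at h1
      linarith, Pool.Agent.KS6_16.KU.neg_one_iff hN hp, h2, Pool.Agent.KS6_16.KU.one_iff hN hp⟩
  · intro h2 p hp w hw
    rw [hR, hF]
    exact Pool.Agent.KS6_16.KU.not_mem_image_iff h2 hp hw
  · intro p hdeg h0 h1 hS
    have h2 := Pool.Agent.Helper766.neg_eval_neg_one_ge p hN hdeg h0 h1 hS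
    refine ⟨by unfold rho; linarith, ?_⟩
    rw [hF]
    constructor
    · exact Pool.Agent.KS6_16.KU.eq_FN_of_typically_real hN p hdeg h0 h1 hS
    · intro h
      rw [h]
      exact Pool.Agent.KS6_16.KU.FN_neg_one hN

end Pool.Agent.Results.MP_6cc408_an.ExtremalPolynomials
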